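import Pool.Agent.Lib.SU76.All
import Pool.Agent.Lib.SU76.Div93

open Pool.Agent.Lib.MP_14338b_nt

namespace Pool.Agent.Results.MP_14338b_nt.Smooth

theorem result : ∀ M : ℕ,
    {x : ℕ × ℕ | 0 < x.1 ∧ 0 < x.2 ∧ (∀ p : ℕ, p.Prime → p ∣ x.1 → p ≤ M) ∧
      x.2 ∣ usigma x.1 ∧ x.1 ∣ usigma x.2}.Finite := by
  intro M
  refine (Pool.Agent.SU76.div93 Pool.Agent.SU76.aRK Pool.Agent.SU76.All.tMAIN (M + 1)).subset ?_
  rintro x ⟨h1, h2, h3, h4, h5⟩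
  exact ⟨Nat.mem_smoothNumbers'.2 fun p hp hd => Nat.lt_succ_of_le (h3 p hp hd), h2, h4, h5⟩

end Pool.Agent.Results.MP_14338b_nt.Smooth
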