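import Pool.Agent.Lib.MP_14338b_nt.Count

set_option autoImplicit false

open Pool.Agent.Lib.MP_14338b_nt

namespace Pool.Agent.Results.MP_14338b_nt.Sparse

theorem result (x : ℕ) (hx : 3 ≤ x) :
    (((Finset.Icc 1 x).filter fun n ↦ usigma (usigma n) = 2 * n).card : ℝ) ≤
      Real.exp (272 * Real.log x / Real.log (Real.log x)) :=
  count_le x hx

end Pool.Agent.Results.MP_14338b_nt.Sparse
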